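import Pool.Agent.V11237.LP.Unif

set_option autoImplicit false

/-!
# Almost prime values of the forms `q r_j + 1`: the laws of the gaps, and the law after the PRIMES `q`,
uniformly in the `r_j`
-/

namespace Pool.Agent.Results.MP_d018b2_nt.LawsUniform

open Finset Filter
open Pool.Agent.V11237

variable {ℓ : ℕ}

/-- None of the `q r_j + 1` has a prime factor `p ≤ N ^ (1 / s)`. -/
def Good (r : Fin ℓ → ℕ) (N s q : ℕ) : Prop :=
  ∀ p : ℕ, p.Prime → (p : ℝ) ≤ (N : ℝ) ^ (1 / (s : ℝ)) → ∀ j, ¬ p ∣ q * r j + 1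

/-- Neither `q` nor any of the `q r_j + 1` has a prime factor `p ≤ N ^ (1 / s)`. -/
def Good' (r : Fin ℓ → ℕ) (N s q : ℕ) : Prop :=
  ∀ p : ℕ, p.Prime → (p : ℝ) ≤ (N : ℝ) ^ (1 / (s : ℝ)) → ¬ p ∣ q ∧ ∀ j, ¬ p ∣ q * r j + 1

open Classical in
/-- The number of the good `q` in `(u, u + Y]` with fewer than `l` good integers in `[q - T, q)`. -/
noncomputable def G (r : Fin ℓ → ℕ) (N s l T u Y : ℕ) : ℕ :=
  ((Ioc u (u + Y)).filter (fun q => Good r N s q ∧
    ((Ico (q - T) q).filter (fun t => Good r N s t)).card < l)).card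

open Classical in
/-- The PRIMES `q` in `(u, u + Y]` satisfying `Good'`. -/
noncomputable def P (r : Fin ℓ → ℕ) (N s u Y : ℕ) : Finset ℕ :=
  (Ioc u (u + Y)).filter (fun q => q.Prime ∧ Good' r N s q)

open Classical in
/-- The number of the integers satisfying `Good'` in `(q, q + T]`. -/
noncomputable def Next (r : Fin ℓ → ℕ) (N s T q : ℕ) : ℕ :=
  ((Ioc q (q + T)).filter (fun t => Good' r N s t)).card

open Classical in
/-- The product, over the primes `p ≤ N ^ (1 / s)`, of `1 - w(p) / p`, with `w(p)` the number of the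
residues `q` modulo `p` for which `p` divides some `q r_j + 1`. -/
noncomputable def V (r : Fin ℓ → ℕ) (N s : ℕ) : ℝ :=
  ∏ p ∈ (Icc 1 ⌊(N : ℝ) ^ (1 / (s : ℝ))⌋₊).filter Nat.Prime,
    (1 - (((range p).filter (fun q : ℕ => ∃ j, p ∣ q * r j + 1)).card : ℝ) / p)

open Classical in
/-- The product, over the primes `p ≤ N ^ (1 / s)`, of `1 - w'(p) / p`, with `w'(p)` the number of the
residues `q` modulo `p` for which `p` divides `q` or some `q r_j + 1`. -/
noncomputable def V' (r : Fin ℓ → ℕ) (N s : ℕ) : ℝ :=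
  ∏ p ∈ (Icc 1 ⌊(N : ℝ) ^ (1 / (s : ℝ))⌋₊).filter Nat.Prime,
    (1 - (((range p).filter (fun q : ℕ => p ∣ q ∨ ∃ j, p ∣ q * r j + 1)).card : ℝ) / p)

/-- The product of `1 - 1 / p` over the primes `p ≤ N ^ (1 / s)`. -/
noncomputable def U (N s : ℕ) : ℝ :=
  ∏ p ∈ (Icc 1 ⌊(N : ℝ) ^ (1 / (s : ℝ))⌋₊).filter Nat.Prime, (1 - 1 / (p : ℝ))

/-- the leading coefficients -/
def aa (r : Fin ℓ → ℕ) : Fin ℓ → ℤ := fun j => r j

/-- the leading coefficients with the form `q` -/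
def aa' (r : Fin ℓ → ℕ) : Fin (ℓ + 1) → ℤ := Fin.cons 1 (fun j => (r j : ℤ))

/-- the constant coefficients with the form `q` -/
def bb' (ℓ : ℕ) : Fin (ℓ + 1) → ℤ := Fin.cons 0 (fun _ => 1)

lemma good_iff (r : Fin ℓ → ℕ) (N s q : ℕ) : LP.Good (aa r) (fun _ => 1) N s q ↔ Good r N s q := by
  unfold LP.Good Good aa
  have : ∀ j, (r j : ℤ) * q + 1 = ((q * r j + 1 : ℕ) : ℤ) := by
    intro j
    push_cast
    ring
  simp only [this, Int.natCast_dvd_natCast]

lemma ex_iff (r : Fin ℓ → ℕ) (p q : ℕ) :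
    (∃ i, (p : ℤ) ∣ aa' r i * q + bb' ℓ i) ↔ (p ∣ q ∨ ∃ j, p ∣ q * r j + 1) := by
  rw [Fin.exists_fin_succ]
  unfold aa' bb'
  simp only [Fin.cons_zero, Fin.cons_succ, one_mul, add_zero]
  have : ∀ j, (r j : ℤ) * q + 1 = ((q * r j + 1 : ℕ) : ℤ) := by
    intro j
    push_cast
    ring
  simp only [this, Int.natCast_dvd_natCast]

lemma good_iff' (r : Fin ℓ → ℕ) (N s q : ℕ) : LP.Good (aa' r) (bb' ℓ) N s q ↔ Good' r N s q := by
  unfold LP.Good Good'
  refine forall_congr' fun p => forall_congr' fun _ => forall_congr' fun _ => ?_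
  have h := not_congr (ex_iff r p q)
  rw [not_exists, not_or, not_exists] at h
  exact h

lemma G_eq (r : Fin ℓ → ℕ) (N s l T u Y : ℕ) :
    LP.G (aa r) (fun _ => 1) N s l T u Y = G r N s l T u Y := by
  classical
  unfold LP.G G
  congr 1
  ext n
  simp only [mem_filter, good_iff]

lemma P_eq (r : Fin ℓ → ℕ) (N s u Y : ℕ) :
    LP.P (aa' r) (bb' ℓ) 1 0 N s u Y = P r N s u Y := by
  classical
  unfold LP.P P
  ext n
  simp only [mem_filter, good_iff', one_mul, add_zero]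

lemma Next_eq (r : Fin ℓ → ℕ) (N s T q : ℕ) :
    LP.Next (aa' r) (bb' ℓ) N s T q = Next r N s T q := by
  classical
  unfold LP.Next Next
  congr 1
  ext n
  simp only [mem_filter, good_iff']

lemma V_eq (r : Fin ℓ → ℕ) (N s : ℕ) : LP.V (aa r) (fun _ => 1) N s = V r N s := by
  classical
  unfold LP.V V LP.nu aa
  have : ∀ (q : ℕ) (j : Fin ℓ), (r j : ℤ) * q + 1 = ((q * r j + 1 : ℕ) : ℤ) := by
    intro q j
    push_cast
    ring
  simp only [this, Int.natCast_dvd_natCast]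

lemma V_eq' (r : Fin ℓ → ℕ) (N s : ℕ) : LP.V (aa' r) (bb' ℓ) N s = V' r N s := by
  classical
  unfold LP.V V' LP.nu
  simp only [ex_iff]

lemma adm1 {r : Fin ℓ → ℕ} (hr : ∀ j, 0 < r j) (hinj : Function.Injective r) {H : ℝ}
    (hH : ∀ j, (r j : ℝ) ≤ H) (hH1 : 1 ≤ H)
    (hadm : ∀ p : ℕ, p.Prime → ∃ q : ℕ, ∀ j, ¬ p ∣ q * r j + 1) : LP.Adm (aa r) (fun _ => 1) H where
  pos j := by unfold aa; exact_mod_cast hr j
  leA j := by unfold aa; exact_mod_cast hH j
  leB j := by simpa using hH1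
  cop j := isCoprime_one_right
  ne i j hij h := by
    unfold aa at h
    exact absurd (hinj (by exact_mod_cast h)) hij
  tr i j h t ht h2 := by
    have h3 : aa r j * t = 0 := by linarith
    rcases mul_eq_zero.1 h3 with h4 | h4
    · unfold aa at h4
      have := hr j
      have : (r j : ℤ) ≠ 0 := by exact_mod_cast this.ne'
      exact this h4
    · exact ht h4
  adm p hp := by
    obtain ⟨q, hq⟩ := hadm p hp
    refine ⟨q, fun j hj => hq j ?_⟩
    unfold aa at hj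
    have : (r j : ℤ) * q + 1 = ((q * r j + 1 : ℕ) : ℤ) := by
      push_cast
      ring
    rw [this] at hj
    exact Int.natCast_dvd_natCast.1 hj

lemma adm2 {r : Fin ℓ → ℕ} (hr : ∀ j, 0 < r j) (hinj : Function.Injective r) {H : ℝ}
    (hH : ∀ j, (r j : ℝ) ≤ H) (hH1 : 1 ≤ H)
    (hadm : ∀ p : ℕ, p.Prime → ∃ q : ℕ, ¬ p ∣ q ∧ ∀ j, ¬ p ∣ q * r j + 1) :
    LP.Adm (aa' r) (bb' ℓ) H := by
  have h2r : ∀ j, 2 ∣ r j := by
    intro j
    obtain ⟨q, hq1, hq2⟩ := hadm 2 Nat.prime_two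
    have h := hq2 j
    by_contra hcon
    apply h
    have h1 : q % 2 = 1 := by omega
    have h3 : r j % 2 = 1 := by omega
    have h4 : (q * r j) % 2 = 1 := by rw [Nat.mul_mod, h1, h3]
    omega
  have hr1 : ∀ j, (r j : ℤ) ≠ 1 := by
    intro j h
    have h1 := h2r j
    have h2 : r j = 1 := by exact_mod_cast h
    rw [h2] at h1
    norm_num at h1
  have hpos : ∀ i, 0 < aa' r i := by
    intro i
    unfold aa'
    refine Fin.cases ?_ (fun j => ?_) i
    · simp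
    · simp only [Fin.cons_succ]
      exact_mod_cast hr j
  refine ⟨hpos, ?_, ?_, ?_, ?_, ?_, ?_⟩
  · intro i
    unfold aa'
    refine Fin.cases ?_ (fun j => ?_) i
    · simpa using hH1
    · simp only [Fin.cons_succ]
      exact_mod_cast hH j
  · intro i
    unfold bb'
    refine Fin.cases ?_ (fun j => ?_) i
    · simp only [Fin.cons_zero, Int.cast_zero, abs_zero]
      linarith
    · simp only [Fin.cons_succ, Int.cast_one, abs_one]
      exact hH1
  · intro i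
    unfold aa' bb'
    refine Fin.cases ?_ (fun j => ?_) i
    · simp only [Fin.cons_zero]
      exact isCoprime_one_left
    · simp only [Fin.cons_succ]
      exact isCoprime_one_right
  · intro i j hij h
    exfalso
    revert hij h
    unfold aa'
    refine Fin.cases ?_ (fun i => ?_) i <;> refine Fin.cases ?_ (fun j => ?_) j
    · intro h _
      exact h rfl
    · intro _ h
      simp only [Fin.cons_zero, Fin.cons_succ] at h
      exact hr1 j h.symm
    · intro _ h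
      simp only [Fin.cons_zero, Fin.cons_succ] at h
      exact hr1 i h
    · intro hij h
      simp only [Fin.cons_succ] at h
      exact hij (congrArg Fin.succ (hinj (by exact_mod_cast h)))
  · intro i j h t ht h2
    have hij : i = j := by
      by_contra hne
      revert hne h
      unfold aa'
      refine Fin.cases ?_ (fun i => ?_) i <;> refine Fin.cases ?_ (fun j => ?_) j
      · intro _ h
        exact h rfl
      · intro h _
        simp only [Fin.cons_zero, Fin.cons_succ] at h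
        exact hr1 j h.symm
      · intro h _
        simp only [Fin.cons_zero, Fin.cons_succ] at h
        exact hr1 i h
      · intro h hij
        simp only [Fin.cons_succ] at h
        exact hij (congrArg Fin.succ (hinj (by exact_mod_cast h)))
    rw [hij] at h2
    have h3 : aa' r j * t = 0 := by linarith
    rcases mul_eq_zero.1 h3 with h4 | h4
    · exact (hpos j).ne' h4
    · exact ht h4
  · intro p hp
    obtain ⟨q, hq1, hq2⟩ := hadm p hp
    refine ⟨q, ?_⟩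
    have h := not_congr (ex_iff r p q)
    rw [not_exists, not_or, not_exists] at h
    exact h.2 ⟨hq1, hq2⟩

/-- **Theorem.** Let `E, θ, δ > 0`, `δ ≤ 1`, `l₀`, `x₀` and `0 < ε ≤ 1`. There is `s₀` such that for all
`s ≥ s₀` and all large `N` the following holds uniformly for all distinct positive integers
`r_1, ..., r_ℓ ≤ N ^ E`.
(1) Let `ℓ ≥ 2` and let no prime divide `∏ (q r_j + 1)` for all `q`. Then `V > 0`, and in EVERY interval
`(u, u + Y]` with `Y ≥ N ^ θ`, for all `l`, `T` with `l ≤ l₀` or `T V ≤ x₀`, the number of the good `q` with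
fewer than `l` good integers in `[q - T, q)` is `Y V ∑_{j < l} e ^ (-T V) (T V) ^ j / j!` up to at most
`ε Y V`.
(2) Let `ℓ ≥ 1` and let no prime divide `q ∏ (q r_j + 1)` for all `q`. Then `V' > 0`, and for all
`X ≥ N ^ θ` and all windows `(u, u + Y] ⊆ (0, X]` with `Y ≥ δ X` the number of the PRIMES `q` in the window
satisfying `Good'` is `Y (V' / U) / log X` up to a relative error `ε`; and for all `T` with `T V' ≤ x₀` and
every finite set `S` of integers, the number of these primes for which the number of the integers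
satisfying `Good'` in `(q, q + T]` lies in `S` is `∑_{j ∈ S} e ^ (-T V') (T V') ^ j / j!` times the number of
all these primes, up to at most `ε` times this number. -/
theorem result (E θ δ : ℝ) (hE : 0 < E) (hθ : 0 < θ) (hδ : 0 < δ) (hδ1 : δ ≤ 1) (l₀ : ℕ)
    (x₀ ε : ℝ) (hε : 0 < ε) (hε1 : ε ≤ 1) :
    ∃ s₀ : ℕ, 2 ≤ s₀ ∧ ∀ s : ℕ, s₀ ≤ s → ∃ N₀ : ℕ, ∀ N : ℕ, N₀ ≤ N → ∀ r : Fin ℓ → ℕ,
      (∀ j, 0 < r j) → Function.Injective r → (∀ j, (r j : ℝ) ≤ (N : ℝ) ^ E) →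
      (2 ≤ ℓ → (∀ p : ℕ, p.Prime → ∃ q : ℕ, ∀ j, ¬ p ∣ q * r j + 1) →
        0 < V r N s ∧ ∀ u Y : ℕ, (N : ℝ) ^ θ ≤ Y → ∀ l T : ℕ, (l ≤ l₀ ∨ T * V r N s ≤ x₀) →
          |(G r N s l T u Y : ℝ) - Y * V r N s *
            ∑ j ∈ range l, Real.exp (-(T * V r N s)) * (T * V r N s) ^ j / j.factorial| ≤
          ε * (Y * V r N s)) ∧
      (1 ≤ ℓ → (∀ p : ℕ, p.Prime → ∃ q : ℕ, ¬ p ∣ q ∧ ∀ j, ¬ p ∣ q * r j + 1) →
        0 < V' r N s ∧ ∀ X : ℕ, (N : ℝ) ^ θ ≤ X → ∀ u Y : ℕ, δ * X ≤ Y → u + Y ≤ X →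
          |((P r N s u Y).card : ℝ) * Real.log X - Y * (V' r N s / U N s)| ≤
            ε * (Y * (V' r N s / U N s)) ∧
          ∀ T : ℕ, T * V' r N s ≤ x₀ → ∀ S : Finset ℕ,
          |(((P r N s u Y).filter (fun q => Next r N s T q ∈ S)).card : ℝ) -
            (P r N s u Y).card *
              ∑ j ∈ S, Real.exp (-(T * V' r N s)) * (T * V' r N s) ^ j / j.factorial| ≤
            ε * (P r N s u Y).card) := by
  classical
  have A1 : ∃ s₁ : ℕ, 2 ≤ s₁ ∧ ∀ s : ℕ, s₁ ≤ s → ∃ N₁ : ℕ, ∀ N : ℕ, N₁ ≤ N → 2 ≤ ℓ →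
      ∀ A B : Fin ℓ → ℤ, LP.Adm A B ((N : ℝ) ^ E) → ∀ u Y : ℕ, (N : ℝ) ^ θ ≤ Y →
      ∀ l T : ℕ, (l ≤ l₀ ∨ T * LP.V A B N s ≤ x₀) →
        |(LP.G A B N s l T u Y : ℝ) - Y * LP.V A B N s *
          ∑ j ∈ range l, Real.exp (-(T * LP.V A B N s)) * (T * LP.V A B N s) ^ j / j.factorial| ≤
        ε * (Y * LP.V A B N s) := by
    by_cases hl : 2 ≤ ℓ
    · obtain ⟨s1, hs1, h⟩ := LP.gap_unif hl E θ hE hθ l₀ x₀ ε hε
      refine ⟨s1, hs1, fun s hs => ?_⟩
      obtain ⟨N1, hN1⟩ := h s hs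
      exact ⟨N1, fun N hN _ => hN1 N hN⟩
    · exact ⟨2, le_rfl, fun s _ => ⟨0, fun N _ h => absurd h hl⟩⟩
  have A2 : ∃ s₁ : ℕ, 2 ≤ s₁ ∧ ∀ s : ℕ, s₁ ≤ s → ∃ N₁ : ℕ, ∀ N : ℕ, N₁ ≤ N → 1 ≤ ℓ →
      ∀ A B : Fin (ℓ + 1) → ℤ, LP.Adm A B ((N : ℝ) ^ E) → ∀ b : ℕ,
      (∃ i, A i = (1 : ℕ) ∧ B i = b) → (∀ i, ((1 : ℕ) : ℤ) ∣ A i) → (b : ℝ) ≤ (N : ℝ) ^ (θ / 4) →
      ∀ X : ℕ, (N : ℝ) ^ θ ≤ X → ∀ u Y : ℕ, δ * X ≤ Y → u + Y ≤ X →
        |((LP.P A B 1 b N s u Y).card : ℝ) * Real.log X - Y * (LP.V A B N s / LP.U N s)| ≤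
          ε * (Y * (LP.V A B N s / LP.U N s)) ∧
        ∀ T : ℕ, T * LP.V A B N s ≤ x₀ → ∀ S : Finset ℕ,
        |(((LP.P A B 1 b N s u Y).filter (fun m => LP.Next A B N s T m ∈ S)).card : ℝ) -
          (LP.P A B 1 b N s u Y).card *
            ∑ j ∈ S, Real.exp (-(T * LP.V A B N s)) * (T * LP.V A B N s) ^ j / j.factorial| ≤
          ε * (LP.P A B 1 b N s u Y).card := by
    by_cases hl : 1 ≤ ℓ
    · obtain ⟨s1, hs1, h⟩ := LP.law_unif 1 squarefree_one (show 2 ≤ ℓ + 1 by omega) E θ δ hE hθ hδ hδ1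
        x₀ ε hε hε1
      refine ⟨s1, hs1, fun s hs => ?_⟩
      obtain ⟨N1, hN1⟩ := h s hs
      exact ⟨N1, fun N hN _ => hN1 N hN⟩
    · exact ⟨2, le_rfl, fun s _ => ⟨0, fun N _ h => absurd h hl⟩⟩
  obtain ⟨s1, hs1, K1⟩ := A1
  obtain ⟨s2, hs2, K2⟩ := A2
  refine ⟨s1 + s2, by omega, ?_⟩
  intro s hs
  obtain ⟨N1, M1⟩ := K1 s (by omega)
  obtain ⟨N2, M2⟩ := K2 s (by omega)
  refine ⟨N1 + N2 + 1, ?_⟩
  intro N hN r hr hinj hrN
  have hN1 : (1 : ℝ) ≤ N := by exact_mod_cast (by omega : 1 ≤ N)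
  have hH1 : (1 : ℝ) ≤ (N : ℝ) ^ E := Real.one_le_rpow hN1 hE.le
  constructor
  · intro hl hadm
    have hA := adm1 hr hinj hrN hH1 hadm
    refine ⟨?_, ?_⟩
    · rw [← V_eq]
      exact hA.Vpos N s
    · intro u Y hY l T hlT
      have h := M1 N (by omega) hl (aa r) (fun _ => 1) hA u Y hY l T (by rw [V_eq]; exact hlT)
      rw [V_eq, G_eq] at h
      exact h
  · intro hl hadm
    have hA := adm2 hr hinj hrN hH1 hadm
    refine ⟨?_, ?_⟩
    · rw [← V_eq']
      exact hA.Vpos N s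
    · intro X hX u Y hY huY
      have h := M2 N (by omega) hl (aa' r) (bb' ℓ) hA 0 ⟨0, by simp [aa'], by simp [bb']⟩
        (fun i => by simp) (by rw [Nat.cast_zero]; positivity) X hX u Y hY huY
      rw [V_eq', P_eq] at h
      obtain ⟨g1, g2⟩ := h
      refine ⟨g1, fun T hT S => ?_⟩
      have g3 := g2 T hT S
      simp only [Next_eq] at g3
      exact g3

end Pool.Agent.Results.MP_d018b2_nt.LawsUniform
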