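import Pool.Agent.H225.LF2

/-!
# Uniform prime tuplets `q r_j + 1`, at integers `q` with restricted digits

Let `b ≥ 2` be a base.  Write `q = M + t` with an arbitrary base point `M ≤ b^{EK}` and let the digits of
`t < b^K` be restricted: the `i`-th digit belongs to a set `A i`, where the sets `A i` are arbitrary,
depend on the place `i < K`, and have the only property that the number `∏ |A i|` of these `q` is at
least `e^{-δK} b^K`, where the constant `δ > 0` does not depend on `b`.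

Let `r_1, …, r_ℓ ≤ b^{EK}` be ANY distinct positive integers with `𝔖 ≠ 0`, where `𝔖` is the singular
series of Q1.  Then the number of these `q` such that all `q r_j + 1` are prime is at most
`C 𝔖 ∏ |A i| / K^ℓ`, and (if the last digit can be chosen such that these numbers are prime to `b`) at
least `κ 𝔖 ∏ |A i| / K^ℓ` of the `q` are such that all `q r_j + 1` have at most `s` prime factors, all
larger than `b^{K/s}`.  The constants do not depend on the `r_j`.
-/

set_option autoImplicit false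

namespace Pool.Agent.Results.MP_d018b2_nt.RestrictedDigits

open Finset Filter

open Classical in
/-- The number of residue classes `q` modulo `p` with `∏ (q r_j + 1) ≡ 0`. -/
noncomputable def w {l : ℕ} (ρ : Fin l → ℕ) (p : ℕ) : ℕ :=
  ((range p).filter (fun q => p ∣ ∏ j, (q * ρ j + 1))).card

/-- The singular product `∏_p (1 - w(p)/p) / (1 - 1/p)^ℓ`. -/
noncomputable def sing {l : ℕ} (ρ : Fin l → ℕ) : ℝ :=
  ∏' p : Nat.Primes, (1 - (w ρ p : ℝ) / ((p : ℕ) : ℝ)) / (1 - 1 / ((p : ℕ) : ℝ)) ^ l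

open Classical in
/-- The number of the `t < b ^ K`, whose `i`-th digit in base `b` belongs to `A i` for all `i < K`, such
that `M + t` belongs to `T`. -/
noncomputable def count (b K M : ℕ) (A : ℕ → Finset ℕ) (T : Set ℕ) : ℕ :=
  ((range (b ^ K)).filter (fun t => (∀ i < K, t / b ^ i % b ∈ A i) ∧ M + t ∈ T)).card

/-- The number of choices of the digits. -/
noncomputable def choices (K : ℕ) (A : ℕ → Finset ℕ) : ℝ := ∏ i ∈ range K, ((A i).card : ℝ)

/-- `m` has at most `s` prime factors, counted with multiplicity, and all of them are larger than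
`z ^ (1 / s)`. -/
def AlmostPrime (s z m : ℕ) : Prop :=
  (∀ p : ℕ, p.Prime → p ∣ m → z < p ^ s) ∧ m.primeFactorsList.length ≤ s

open Pool.Agent.Y816.PD (ND ND_sub)
open Pool.Agent.H225.LF (sg loc rt adm_of_sg lf)

/-- the coefficients -/
def co {l : ℕ} (ρ : Fin l → ℕ) : Fin l → ℤ := fun j => ρ j

lemma w_eq {l : ℕ} (ρ : Fin l → ℕ) {p : ℕ} (hp : p.Prime) :
    rt (co ρ) (fun _ => 1) p = w ρ p := by
  classical
  unfold rt w
  congr 1
  refine filter_congr fun q _ => ?_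
  rw [(Nat.prime_iff.1 hp).dvd_finset_prod_iff]
  simp only [mem_univ, true_and]
  refine exists_congr fun j => ?_
  have e : co ρ j * (q : ℤ) + 1 = ((q * ρ j + 1 : ℕ) : ℤ) := by
    unfold co
    push_cast
    ring
  rw [e]
  exact Int.natCast_dvd_natCast

lemma sing_eq {l : ℕ} (ρ : Fin l → ℕ) : sg l (rt (co ρ) (fun _ => 1)) = sing ρ := by
  unfold sg sing loc
  refine tprod_congr fun p => ?_
  rw [w_eq ρ p.2, inv_pow, mul_comm, ← div_eq_mul_inv]

lemma val_eq {l : ℕ} (ρ : Fin l → ℕ) (j : Fin l) (q : ℕ) :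
    (co ρ j * (q : ℤ) + 1).natAbs = q * ρ j + 1 := by
  have e : co ρ j * (q : ℤ) + 1 = ((q * ρ j + 1 : ℕ) : ℤ) := by
    unfold co
    push_cast
    ring
  rw [e]
  exact Int.natAbs_natCast _

/-- **Uniform prime tuplets for the forms `q r_j + 1`, at `q` with restricted digits.** -/
theorem result (l E : ℕ) (hl : 1 ≤ l) :
    ∃ δ : ℝ, 0 < δ ∧ ∃ s₀ : ℕ, 2 ≤ s₀ ∧ ∀ s : ℕ, s₀ ≤ s → ∀ b : ℕ, 2 ≤ b →
      ∃ κ C : ℝ, 0 < κ ∧ 0 < C ∧ ∀ᶠ K : ℕ in atTop, ∀ M : ℕ, M ≤ b ^ (E * K) →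
        ∀ ρ : Fin l → ℕ, Function.Injective ρ → (∀ j, 1 ≤ ρ j ∧ ρ j ≤ b ^ (E * K)) → sing ρ ≠ 0 →
        ∀ A : ℕ → Finset ℕ, (∀ i < K, A i ⊆ range b) →
        (b : ℝ) ^ K ≤ Real.exp (δ * K) * choices K A →
        0 < sing ρ ∧
        ((∃ e ∈ A 0, ∀ j, ((M + e) * ρ j + 1).Coprime b) → (∃ e ∈ A (K - 1), e ≠ 0) →
          κ * sing ρ * choices K A / (K : ℝ) ^ l ≤
            count b K M A {q | b ^ (K - 1) ≤ q ∧ ∀ j, AlmostPrime s (b ^ K) (q * ρ j + 1)}) ∧
        (count b K M A {q | ∀ j, (q * ρ j + 1).Prime} : ℝ) ≤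
          C * sing ρ * choices K A / (K : ℝ) ^ l := by
  obtain ⟨δ, hδ, r₀, hr₀, h⟩ := lf l E hl
  refine ⟨δ, hδ, r₀, hr₀, fun r hr b hb => ?_⟩
  obtain ⟨κ, C, hκ, hC, h1⟩ := h r hr b hb
  refine ⟨κ, C, hκ, hC, ?_⟩
  filter_upwards [h1] with K hK M hM ρ hρ hρE hsing A hA hprod
  have ha0 : ∀ j, co ρ j ≠ 0 := fun j => by
    unfold co
    have := (hρE j).1
    exact_mod_cast (by omega : ρ j ≠ 0)
  have hac : ∀ i j, i ≠ j → co ρ i * 1 ≠ co ρ j * 1 := by
    intro i j hij h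
    rw [mul_one, mul_one] at h
    unfold co at h
    exact hij (hρ (by exact_mod_cast h))
  rw [← sing_eq] at hsing
  have hadm := adm_of_sg ha0 hac hsing
  obtain ⟨h2, h3, h4⟩ := hK M hM (co ρ) (fun _ => 1) ha0
    (fun j => by unfold co; exact (hρE j).2) (fun j => Nat.one_le_pow _ _ (by omega)) hac hadm A hA
    hprod
  rw [sing_eq] at h2 h3 h4
  refine ⟨h2, ?_, ?_⟩
  · rintro ⟨e, he, hc⟩ htop
    refine (h3 ⟨e, he, fun j => ?_⟩ htop).trans (Nat.cast_le.2 ?_)
    · rw [val_eq]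
      exact hc j
    · refine ND_sub fun n _ hn1 hn2 => ⟨hn1, hn2.1.trans (Nat.le_add_left _ _), fun j => ?_⟩
      have := hn2.2 j
      rw [val_eq] at this
      exact this
  · refine le_trans (Nat.cast_le.2 ?_) h4
    refine ND_sub fun n _ hn1 hn2 => ⟨hn1, fun j => ?_⟩
    rw [val_eq]
    refine ⟨hn2 j, ?_⟩
    have h5 := (hρE j).1
    have h6 : n < (M + n) * ρ j + 1 := by nlinarith
    nlinarith

end Pool.Agent.Results.MP_d018b2_nt.RestrictedDigits
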